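import Mathlib

/-!
# The set-splitting game on an abstract set

Player A has a winning strategy in the set-splitting game on `E` if and only if `E` is countable.
-/

namespace Pool.Agent.Results.MP_053b7f_lc.OnlyCountable

open Set

universe u

/-- A move in the game: the player chooses the set `chosen` and partitions it into the two disjoint
sets `cut` and `chosen \ cut`. -/
structure Move (E : Type u) where
  chosen : Set E
  cut : Set E

variable {E : Type u}

/-- The move `b` may follow the move `a`: the set chosen by `b` is one of the two parts into which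
`a` partitioned its set, and `b` partitions the set it chose. -/
def Next (a b : Move E) : Prop :=
  (b.chosen = a.cut ∨ b.chosen = a.chosen \ a.cut) ∧ b.cut ⊆ b.chosen

/-- A strategy `τ` for player A gives his move as a function of the list of the previous moves of
player B. The list `l` of moves of B is legal against `τ` if each of them may follow the move of A
given by `τ`. -/
inductive LegalB (τ : List (Move E) → Move E) : List (Move E) → Prop
  | nil : LegalB τ []
  | snoc (l : List (Move E)) (b : Move E) : LegalB τ l → Next (τ l) b → LegalB τ (l ++ [b])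

/-- The strategy `τ` is a winning strategy for player A. The `n`-th move of B is `b n`, so the play
is `τ [], b 0, τ [b 0], b 1, τ [b 0, b 1], …` and the sets `S 1, S 2, S 3, S 4, …` are the sets
chosen in `b 0, τ [b 0], b 1, τ [b 0, b 1], …`. -/
structure Winning (τ : List (Move E) → Move E) : Prop where
  /-- A starts by partitioning the whole set. -/
  start : (τ []).chosen = univ ∧ (τ []).cut ⊆ univ
  /-- A answers legal moves of B by legal moves. -/
  legal : ∀ (l : List (Move E)) (b : Move E), LegalB τ l → Next (τ l) b → Next b (τ (l ++ [b]))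
  /-- If B makes legal moves, then A wins. -/
  wins : ∀ b : ℕ → Move E, (∀ n, Next (τ ((List.range n).map b)) (b n)) →
    ⋂ n, ((b n).chosen ∩ (τ ((List.range (n + 1)).map b)).chosen) = ∅

/-- The answer of B with digits `f`: choose the part given by `c` and split it according to the
`i`-th digit. -/
def resp (f : E → ℕ → Bool) (a : Move E) (c : Bool) (i : ℕ) : Move E where
  chosen := if c then a.cut else a.chosen \ a.cut
  cut := {x | x ∈ (if c then a.cut else a.chosen \ a.cut) ∧ f x i = true}

theorem next_resp (f : E → ℕ → Bool) (a : Move E) (c : Bool) (i : ℕ) : Next a (resp f a c i) := by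
  refine ⟨?_, fun x hx => hx.1⟩
  cases c
  · exact Or.inr rfl
  · exact Or.inl rfl

/-- the list of moves of B given by a list of codes -/
def F (τ : List (Move E) → Move E) (f : E → ℕ → Bool) (t : List (Bool × ℕ)) : List (Move E) :=
  t.foldl (fun l ci => l ++ [resp f (τ l) ci.1 ci.2]) []

theorem F_snoc (τ : List (Move E) → Move E) (f : E → ℕ → Bool) (t : List (Bool × ℕ))
    (c : Bool) (i : ℕ) : F τ f (t ++ [(c, i)]) = F τ f t ++ [resp f (τ (F τ f t)) c i] := by
  simp [F, List.foldl_append]

theorem legal_F (τ : List (Move E) → Move E) (f : E → ℕ → Bool) (t : List (Bool × ℕ)) :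
    LegalB τ (F τ f t) := by
  induction t using List.reverseRecOn with
  | nil => exact LegalB.nil
  | append_singleton t ci ih =>
    obtain ⟨c, i⟩ := ci
    rw [F_snoc]
    exact LegalB.snoc _ _ ih (next_resp _ _ _ _)

theorem not_winning [Uncountable E] (τ : List (Move E) → Move E) : ¬ Winning τ := by
  classical
  intro hτ
  -- an uncountable set injecting into `2 ^ ω`
  obtain ⟨A, f, hA, hf⟩ : ∃ (A : Set E) (f : E → ℕ → Bool), ¬ A.Countable ∧ InjOn f A := by
    have h1 : Cardinal.aleph 1 ≤ Cardinal.mk E := by
      rw [← Cardinal.succ_aleph0]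
      exact Order.succ_le_of_lt (Cardinal.aleph0_lt_mk_iff.2 inferInstance)
    obtain ⟨A, hA⟩ := Cardinal.le_mk_iff_exists_set.1 h1
    have h2 : Cardinal.lift.{0} (Cardinal.mk A) ≤ Cardinal.lift.{u} (Cardinal.mk (ℕ → Bool)) := by
      rw [hA]
      simp only [Cardinal.lift_aleph, Ordinal.lift_one, Cardinal.mk_pi, Cardinal.mk_bool,
        Cardinal.prod_const, Cardinal.lift_ofNat, Cardinal.mk_nat, Cardinal.lift_aleph0,
        Cardinal.lift_power, Cardinal.two_power_aleph0, Cardinal.lift_continuum]
      exact Cardinal.aleph_one_le_continuum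
    obtain ⟨g⟩ := Cardinal.lift_mk_le'.1 h2
    refine ⟨A, fun x => if hx : x ∈ A then g ⟨x, hx⟩ else fun _ => false, ?_, ?_⟩
    · intro hc
      have h3 : Cardinal.mk A ≤ Cardinal.aleph0 := hc.le_aleph0
      rw [hA] at h3
      exact absurd Cardinal.aleph0_lt_aleph_one (not_lt.2 h3)
    · intro x hx y hy hxy
      simp only [dif_pos hx, dif_pos hy] at hxy
      have := g.injective hxy
      simpa using this
  -- the bad points
  let Bad : List (Bool × ℕ) × Bool → Set E := fun tc =>
    {x | x ∈ A ∧ x ∈ (resp f (τ (F τ f tc.1)) tc.2 0).chosen ∧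
      ∀ i, x ∉ (τ (F τ f (tc.1 ++ [(tc.2, i)]))).chosen}
  have hbad : ∀ tc, (Bad tc).Subsingleton := by
    intro tc x hx y hy
    by_contra hne
    have h1 : f x ≠ f y := fun h => hne (hf hx.1 hy.1 h)
    obtain ⟨i, hi⟩ := Function.ne_iff.1 h1
    have h2 := hτ.legal _ _ (legal_F τ f tc.1) (next_resp f (τ (F τ f tc.1)) tc.2 i)
    rw [← F_snoc] at h2
    have hx2 := hx.2.2 i
    have hy2 := hy.2.2 i
    have hx3 : x ∈ (resp f (τ (F τ f tc.1)) tc.2 i).chosen := hx.2.1
    have hy3 : y ∈ (resp f (τ (F τ f tc.1)) tc.2 i).chosen := hy.2.1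
    have hcut : ∀ z, z ∈ (resp f (τ (F τ f tc.1)) tc.2 i).chosen →
        (z ∈ (resp f (τ (F τ f tc.1)) tc.2 i).cut ↔ f z i = true) := fun z hz =>
      ⟨fun h => h.2, fun h => ⟨hz, h⟩⟩
    rcases h2.1 with h3 | h3
    · rw [h3, hcut _ hx3] at hx2
      rw [h3, hcut _ hy3] at hy2
      rw [Bool.not_eq_true] at hx2 hy2
      exact hi (hx2.trans hy2.symm)
    · rw [h3] at hx2 hy2
      have hx4 : f x i = true := by
        rw [← hcut _ hx3]
        by_contra h4
        exact hx2 ⟨hx3, h4⟩
      have hy4 : f y i = true := by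
        rw [← hcut _ hy3]
        by_contra h4
        exact hy2 ⟨hy3, h4⟩
      exact hi (hx4.trans hy4.symm)
  have hcount : (⋃ tc, Bad tc).Countable := countable_iUnion fun tc => (hbad tc).countable
  obtain ⟨x, hxA, hx⟩ : ∃ x ∈ A, x ∉ ⋃ tc, Bad tc := by
    by_contra hcon
    push Not at hcon
    exact hA (hcount.mono hcon)
  -- the play which keeps `x`
  have hnext : ∀ t : List (Bool × ℕ), ∃ ci : Bool × ℕ, x ∈ (τ (F τ f t)).chosen →
      x ∈ (resp f (τ (F τ f t)) ci.1 ci.2).chosen ∧ x ∈ (τ (F τ f (t ++ [ci]))).chosen := by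
    intro t
    by_cases h1 : x ∈ (τ (F τ f t)).chosen
    · obtain ⟨c, hc⟩ : ∃ c, ∀ i, x ∈ (resp f (τ (F τ f t)) c i).chosen := by
        by_cases h2 : x ∈ (τ (F τ f t)).cut
        · exact ⟨true, fun i => h2⟩
        · exact ⟨false, fun i => ⟨h1, h2⟩⟩
      have h3 : ∃ i, x ∈ (τ (F τ f (t ++ [(c, i)]))).chosen := by
        by_contra hcon
        push Not at hcon
        exact hx (mem_iUnion.2 ⟨(t, c), hxA, hc 0, hcon⟩)
      obtain ⟨i, hi⟩ := h3
      exact ⟨(c, i), fun _ => ⟨hc i, hi⟩⟩
    · exact ⟨(true, 0), fun h => absurd h h1⟩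
  choose nxt hnxt using hnext
  let t : ℕ → List (Bool × ℕ) := fun n => Nat.rec [] (fun _ t => t ++ [nxt t]) n
  let b : ℕ → Move E := fun n => resp f (τ (F τ f (t n))) (nxt (t n)).1 (nxt (t n)).2
  have hF : ∀ n, (List.range n).map b = F τ f (t n) := by
    intro n
    induction n with
    | zero => rfl
    | succ n ih =>
      rw [List.range_succ, List.map_append, ih]
      exact (F_snoc τ f (t n) (nxt (t n)).1 (nxt (t n)).2).symm
  have hmem : ∀ n, x ∈ (τ (F τ f (t n))).chosen := by
    intro n
    induction n with
    | zero =>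
      change x ∈ (τ []).chosen
      rw [hτ.start.1]
      exact mem_univ x
    | succ n ih => exact (hnxt (t n) ih).2
  have h1 := hτ.wins b fun n => by
    rw [hF]
    exact next_resp _ _ _ _
  have h2 : x ∈ ⋂ n, ((b n).chosen ∩ (τ ((List.range (n + 1)).map b)).chosen) := by
    refine mem_iInter.2 fun n => ⟨(hnxt (t n) (hmem n)).1, ?_⟩
    rw [hF]
    exact hmem (n + 1)
  rw [h1] at h2
  exact h2

/-- the strategy of A on a countable set enumerated by `p` -/
noncomputable def strat (p : ℕ → E) (l : List (Move E)) : Move E :=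
  open Classical in
  match l.getLast? with
  | none => ⟨univ, ∅⟩
  | some b => ⟨if p (l.length - 1) ∈ b.cut then b.chosen \ b.cut else b.cut, ∅⟩

theorem winning_of_surjective (p : ℕ → E) (hp : Function.Surjective p) : Winning (strat p) where
  start := ⟨rfl, empty_subset _⟩
  legal := by
    classical
    intro l b _ _
    have h1 : strat p (l ++ [b]) =
        ⟨if p l.length ∈ b.cut then b.chosen \ b.cut else b.cut, ∅⟩ := by
      simp [strat]
    rw [h1]
    refine ⟨?_, empty_subset _⟩
    by_cases h : p l.length ∈ b.cut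
    · simp [h]
    · simp [h]
  wins := by
    classical
    intro b _
    refine eq_empty_iff_forall_notMem.2 fun x hx => ?_
    obtain ⟨n, rfl⟩ := hp x
    have h1 := (mem_iInter.1 hx n).2
    have h2 : strat p ((List.range (n + 1)).map b) =
        ⟨if p n ∈ (b n).cut then (b n).chosen \ (b n).cut else (b n).cut, ∅⟩ := by
      rw [List.range_succ, List.map_append]
      simp [strat]
    rw [h2] at h1
    by_cases h : p n ∈ (b n).cut
    · simp [h] at h1
    · simp [h] at h1

/-- Player A has a winning strategy in the set-splitting game on `E` exactly when `E` is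
countable. -/
theorem result (E : Type u) : (∃ τ : List (Move E) → Move E, Winning τ) ↔ Countable E := by
  constructor
  · rintro ⟨τ, hτ⟩
    by_contra hE
    have : Uncountable E := not_countable_iff.1 hE
    exact not_winning τ hτ
  · intro hE
    rcases isEmpty_or_nonempty E with h | h
    · refine ⟨fun l => match l.getLast? with
        | none => ⟨univ, ∅⟩
        | some b => ⟨b.cut, ∅⟩, ⟨rfl, empty_subset _⟩, ?_, ?_⟩
      · intro l b _ _
        simp [Next]
      · intro b _
        exact Set.eq_empty_of_isEmpty _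
    · obtain ⟨p, hp⟩ := exists_surjective_nat E
      exact ⟨strat p, winning_of_surjective p hp⟩

end Pool.Agent.Results.MP_053b7f_lc.OnlyCountable
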